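import Mathlib
import Pool.Agent.VM5.Defs

set_option autoImplicit false

namespace Pool.Agent.VM5.H98

open Pool.Agent.VM5

theorem ta1 (t ξ : ℝ) (p : ℕ × ℕ × ℤ) (m : ℝ) :
    (t * ((p.2.2 : ℝ) + (p.2.1 : ℝ) * m + (p.1 : ℝ)) ^ 5 +
        ξ * ((p.2.2 : ℝ) + (p.2.1 : ℝ) * m + (p.1 : ℝ))) -
      (t * ((p.2.2 : ℝ) + (p.2.1 : ℝ) * m) ^ 5 + ξ * ((p.2.2 : ℝ) + (p.2.1 : ℝ) * m)) =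
    (t * (((p.2.2 : ℝ) + (p.1 : ℝ)) ^ 5 - (p.2.2 : ℝ) ^ 5) + ξ * (p.1 : ℝ)) +
      ∑ j : Fin 4, t * (co2 j p : ℝ) * m ^ ((j : ℕ) + 1) := by
  simp only [Fin.sum_univ_four, co2, m1, m2, m3, m4, Z2]
  simp
  ring

theorem ta2 (t ξ : ℝ) (p : ℕ × ℕ × ℕ × ℤ) : ∃ c₀ : ℝ, ∀ m : ℝ,
    (t * ((p.2.2.2 : ℝ) + (p.2.2.1 : ℝ) * m + (p.1 : ℝ) + (p.2.1 : ℝ)) ^ 5 +
        ξ * ((p.2.2.2 : ℝ) + (p.2.2.1 : ℝ) * m + (p.1 : ℝ) + (p.2.1 : ℝ))) -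
      (t * ((p.2.2.2 : ℝ) + (p.2.2.1 : ℝ) * m + (p.1 : ℝ)) ^ 5 +
        ξ * ((p.2.2.2 : ℝ) + (p.2.2.1 : ℝ) * m + (p.1 : ℝ))) -
      (t * ((p.2.2.2 : ℝ) + (p.2.2.1 : ℝ) * m + (p.2.1 : ℝ)) ^ 5 +
        ξ * ((p.2.2.2 : ℝ) + (p.2.2.1 : ℝ) * m + (p.2.1 : ℝ))) +
      (t * ((p.2.2.2 : ℝ) + (p.2.2.1 : ℝ) * m) ^ 5 +
        ξ * ((p.2.2.2 : ℝ) + (p.2.2.1 : ℝ) * m)) =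
    c₀ + ∑ j : Fin 3, t * (co3 j p : ℝ) * m ^ ((j : ℕ) + 1) := by
  refine ⟨t * (((p.2.2.2 : ℝ) + (p.1 : ℝ) + (p.2.1 : ℝ)) ^ 5 -
    ((p.2.2.2 : ℝ) + (p.1 : ℝ)) ^ 5 - ((p.2.2.2 : ℝ) + (p.2.1 : ℝ)) ^ 5 + (p.2.2.2 : ℝ) ^ 5),
    fun m => ?_⟩
  simp only [Fin.sum_univ_three, co3, n1, n2, n3, V3, W3, Z3]
  simp
  ring

/-- `2 a₂ = 5 h d ^ 2 (3 Z ^ 2 + h ^ 2)` -/
theorem two_m2 (p : ℕ × ℕ × ℤ) :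
    2 * m2 p = 5 * (p.1 : ℤ) * (p.2.1 : ℤ) ^ 2 * (3 * Z2 p ^ 2 + (p.1 : ℤ) ^ 2) := by
  simp only [m2, Z2]; ring

/-- the identity behind `Y` in part II -/
theorem y2 (p p' : ℕ × ℕ × ℤ) :
    (p.2.1 : ℤ) * (m3 p - m3 p') - 2 * Z2 p * (m4 p - m4 p') =
      10 * (p'.1 : ℤ) * (p'.2.1 : ℤ) ^ 3 * ((p'.2.1 : ℤ) * Z2 p - (p.2.1 : ℤ) * Z2 p') := by
  simp only [m3, m4]; ring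

/-- the identity behind `(**)` -/
theorem star (p p' : ℕ × ℕ × ℤ) :
    2 * (p'.2.1 : ℤ) * (p.2.1 : ℤ) ^ 2 * (2 * m2 p - 2 * m2 p') =
      6 * (p'.2.1 : ℤ) * Z2 p ^ 2 * (m4 p - m4 p') +
      3 * (10 * (p'.1 : ℤ) * (p'.2.1 : ℤ) ^ 3 *
        ((p'.2.1 : ℤ) * Z2 p - (p.2.1 : ℤ) * Z2 p')) *
        ((p'.2.1 : ℤ) * Z2 p + (p.2.1 : ℤ) * Z2 p') +
      10 * (p'.2.1 : ℤ) * (p.2.1 : ℤ) ^ 2 *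
        ((p.1 : ℤ) ^ 3 * (p.2.1 : ℤ) ^ 2 - (p'.1 : ℤ) ^ 3 * (p'.2.1 : ℤ) ^ 2) := by
  rw [two_m2, two_m2]; simp only [m4]; ring

/-- the identity behind `Y` in part III -/
theorem y3 (p p' : ℕ × ℕ × ℕ × ℤ) :
    2 * (p.2.2.1 : ℤ) * (n2 p - n2 p') - 3 * Z3 p * (n3 p - n3 p') =
      60 * V3 p' * (p'.2.2.1 : ℤ) ^ 2 *
        ((p'.2.2.1 : ℤ) * Z3 p - (p.2.2.1 : ℤ) * Z3 p') := by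
  simp only [n2, n3]; ring

end Pool.Agent.VM5.H98
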