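import Mathlib

/-!
# A kit for counting: `Nat.card` of subtypes
-/

set_option autoImplicit false

namespace Pool.Agent.VM5.Kit

theorem card_mono {α : Type*} {P Q : α → Prop} (hQ : {x | Q x}.Finite)
    (h : ∀ x, P x → Q x) : Nat.card {x // P x} ≤ Nat.card {x // Q x} := by
  have : Finite {x // Q x} := hQ
  exact Nat.card_le_card_of_injective (fun x => (⟨x.1, h x.1 x.2⟩ : {x // Q x}))
    (fun x y hxy => Subtype.ext (by simpa using congrArg Subtype.val hxy))

theorem card_inj_le {α β : Type*} {P : α → Prop} {Q : β → Prop} (f : α → β)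
    (hQ : {x | Q x}.Finite) (hf : ∀ x, P x → Q (f x))
    (inj : ∀ x y, P x → P y → f x = f y → x = y) :
    Nat.card {x // P x} ≤ Nat.card {y // Q y} := by
  have : Finite {x // Q x} := hQ
  exact Nat.card_le_card_of_injective (fun x => (⟨f x.1, hf x.1 x.2⟩ : {y // Q y}))
    (fun x y hxy => Subtype.ext (inj _ _ x.2 y.2 (by simpa using congrArg Subtype.val hxy)))

theorem card_eq_filter {α : Type*} {P : α → Prop} (A : Finset α) [DecidablePred P]
    (h : ∀ x, P x → x ∈ A) : Nat.card {x // P x} = (A.filter P).card := by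
  rw [Nat.subtype_card (A.filter P)]
  intro x
  simp only [Finset.mem_filter]
  exact ⟨fun hx => hx.2, fun hx => ⟨h x hx, hx⟩⟩

theorem card_or_le {α : Type*} {P Q R : α → Prop} (hQ : {x | Q x}.Finite)
    (hR : {x | R x}.Finite) (h : ∀ x, P x → Q x ∨ R x) :
    Nat.card {x // P x} ≤ Nat.card {x // Q x} + Nat.card {x // R x} := by
  classical
  have h1 := card_eq_filter (P := Q) hQ.toFinset (fun x hx => by simpa using hx)
  have h2 := card_eq_filter (P := R) hR.toFinset (fun x hx => by simpa using hx)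
  have h3 : Nat.card {x // P x} ≤ Nat.card {x // x ∈ hQ.toFinset ∪ hR.toFinset} := by
    have : Finite {x // x ∈ hQ.toFinset ∪ hR.toFinset} := inferInstance
    refine Nat.card_le_card_of_injective (fun x => ⟨x.1, ?_⟩)
      (fun x y hxy => Subtype.ext (by simpa using congrArg Subtype.val hxy))
    rcases h x.1 x.2 with h' | h'
    · exact Finset.mem_union_left _ (by simpa using h')
    · exact Finset.mem_union_right _ (by simpa using h')
  have h4 : Nat.card {x // x ∈ hQ.toFinset ∪ hR.toFinset} =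
      (hQ.toFinset ∪ hR.toFinset).card := by
    rw [Nat.card_eq_fintype_card, Fintype.card_coe]
  have h5 : (hQ.toFinset.filter Q).card = hQ.toFinset.card := by
    congr 1; ext x; simp
  have h6 : (hR.toFinset.filter R).card = hR.toFinset.card := by
    congr 1; ext x; simp
  have h7 := Finset.card_union_le hQ.toFinset hR.toFinset
  omega

/-- the number of elements is the sum over the fibres -/
theorem card_fib {α β : Type*} {P : α → Prop} (hP : {x | P x}.Finite) (f : α → β)
    (B : Finset β) (hf : ∀ x, P x → f x ∈ B) :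
    Nat.card {x // P x} = ∑ y ∈ B, Nat.card {x // P x ∧ f x = y} := by
  classical
  have h1 := card_eq_filter (P := P) hP.toFinset (fun x hx => by simpa using hx)
  have h2 : ∀ y, Nat.card {x // P x ∧ f x = y} =
      ((hP.toFinset.filter P).filter (fun x => f x = y)).card := by
    intro y
    rw [card_eq_filter (P := fun x => P x ∧ f x = y) hP.toFinset
      (fun x hx => by simpa using hx.1), Finset.filter_filter]
  rw [h1, Finset.card_eq_sum_card_fiberwise (f := f) (t := B)]
  · exact Finset.sum_congr rfl (fun y _ => (h2 y).symm)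
  · intro x hx
    have hx' := Finset.mem_coe.mp hx
    exact hf x (Finset.mem_filter.mp hx').2

/-- fibres of bounded size, real version -/
theorem card_fib_le {α β : Type*} {P : α → Prop} (hP : {x | P x}.Finite) (f : α → β)
    (B : Finset β) (m : ℝ) (hf : ∀ x, P x → f x ∈ B)
    (hm : ∀ y ∈ B, (Nat.card {x // P x ∧ f x = y} : ℝ) ≤ m) :
    (Nat.card {x // P x} : ℝ) ≤ (B.card : ℝ) * m := by
  rw [card_fib hP f B hf, Nat.cast_sum]
  calc ∑ y ∈ B, (Nat.card {x // P x ∧ f x = y} : ℝ) ≤ ∑ _y ∈ B, m := Finset.sum_le_sum hm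
    _ = (B.card : ℝ) * m := by simp

/-- fibres of bounded size over a finite set given by a predicate -/
theorem card_fib_le' {α β : Type*} {P : α → Prop} {Q : β → Prop} (hP : {x | P x}.Finite)
    (hQ : {y | Q y}.Finite) (f : α → β) (m : ℝ) (hf : ∀ x, P x → Q (f x))
    (hm : ∀ y, Q y → (Nat.card {x // P x ∧ f x = y} : ℝ) ≤ m) :
    (Nat.card {x // P x} : ℝ) ≤ (Nat.card {y // Q y} : ℝ) * m := by
  classical
  have h1 := card_fib_le hP f hQ.toFinset m (fun x hx => by simpa using hf x hx)
    (fun y hy => hm y (by simpa using hy))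
  have h2 : Nat.card {y // Q y} = hQ.toFinset.card := by
    rw [card_eq_filter (P := Q) hQ.toFinset (fun x hx => by simpa using hx)]
    congr 1; ext x; simp
  rw [h2]; exact h1

/-- points of the real line with mutual distances `≥ M` and `≤ L` -/
theorem card_spaced {α : Type*} (A : Finset α) (f : α → ℝ) (M L : ℝ) (hM : 0 < M) (hL : 0 ≤ L)
    (hs : ∀ x ∈ A, ∀ y ∈ A, x ≠ y → M ≤ |f x - f y|)
    (hd : ∀ x ∈ A, ∀ y ∈ A, |f x - f y| ≤ L) : (A.card : ℝ) ≤ 1 + L / M := by
  classical
  rcases A.eq_empty_or_nonempty with rfl | hne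
  · simp; positivity
  obtain ⟨x₀, hx₀, hmin⟩ := A.exists_min_image f hne
  have hmap : ∀ x ∈ A, ⌊(f x - f x₀) / M⌋₊ ∈ Finset.range (⌊L / M⌋₊ + 1) := by
    intro x hx
    rw [Finset.mem_range]
    refine Nat.lt_succ_of_le (Nat.floor_le_floor ?_)
    have h1 := hd x hx x₀ hx₀
    have h2 := le_abs_self (f x - f x₀)
    exact (div_le_div_iff_of_pos_right hM).mpr (by linarith)
  have hinj : ∀ x ∈ A, ∀ y ∈ A, ⌊(f x - f x₀) / M⌋₊ = ⌊(f y - f x₀) / M⌋₊ → x = y := by
    intro x hx y hy hxy
    by_contra hne'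
    have h1 := hs x hx y hy hne'
    have hx1 : 0 ≤ (f x - f x₀) / M := div_nonneg (by linarith [hmin x hx]) hM.le
    have hy1 : 0 ≤ (f y - f x₀) / M := div_nonneg (by linarith [hmin y hy]) hM.le
    have a1 := Nat.floor_le hx1
    have a2 := Nat.lt_floor_add_one ((f x - f x₀) / M)
    have b1 := Nat.floor_le hy1
    have b2 := Nat.lt_floor_add_one ((f y - f x₀) / M)
    rw [hxy] at a1 a2
    have h3 : |(f x - f x₀) / M - (f y - f x₀) / M| < 1 := by
      rw [abs_lt]; constructor <;> linarith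
    have h4 : (f x - f x₀) / M - (f y - f x₀) / M = (f x - f y) / M := by ring
    rw [h4, abs_div, abs_of_pos hM, div_lt_one hM] at h3
    linarith
  have hc := Finset.card_le_card_of_injOn (s := A) (t := Finset.range (⌊L / M⌋₊ + 1))
    (fun x => ⌊(f x - f x₀) / M⌋₊) hmap (fun x hx y hy hxy => hinj x hx y hy hxy)
  rw [Finset.card_range] at hc
  have h5 : (⌊L / M⌋₊ : ℝ) ≤ L / M := Nat.floor_le (div_nonneg hL hM.le)
  have h6 : (A.card : ℝ) ≤ (⌊L / M⌋₊ : ℝ) + 1 := by exact_mod_cast hc
  linarith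

/-- integers whose mutual differences are multiples of `M` and at most `L` -/
theorem card_dvd_spaced {P : ℤ → Prop} (hP : {x | P x}.Finite) (M : ℕ) (L : ℝ) (hM : 1 ≤ M)
    (hL : 0 ≤ L) (hs : ∀ x y, P x → P y → (M : ℤ) ∣ x - y)
    (hd : ∀ x y, P x → P y → |(x : ℝ) - (y : ℝ)| ≤ L) :
    (Nat.card {x // P x} : ℝ) ≤ 1 + L / (M : ℝ) := by
  classical
  have h1 := card_eq_filter (P := P) hP.toFinset (fun x hx => by simpa using hx)
  rw [h1]
  refine card_spaced _ (fun x : ℤ => (x : ℝ)) M L (by exact_mod_cast hM) hL ?_ ?_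
  · intro x hx y hy hxy
    have hx' := (Finset.mem_filter.mp hx).2
    have hy' := (Finset.mem_filter.mp hy).2
    have h2 := hs x y hx' hy'
    have h3 : x - y ≠ 0 := sub_ne_zero.mpr hxy
    have h4 : (M : ℤ) ≤ |x - y| := by
      have := Int.le_of_dvd (abs_pos.mpr h3) ((dvd_abs _ _).mpr h2)
      exact this
    have h5 : ((M : ℤ) : ℝ) ≤ ((|x - y| : ℤ) : ℝ) := by exact_mod_cast h4
    simpa using h5
  · intro x hx y hy
    exact hd x y (Finset.mem_filter.mp hx).2 (Finset.mem_filter.mp hy).2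

end Pool.Agent.VM5.Kit
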