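import Mathlib
import Pool.Agent.VM5.Defs
import Pool.Agent.Helper69_Weyl.Moments

/-!
# The two forms of the Weyl sum
-/

set_option autoImplicit false

namespace Pool.Agent.VM5

open Pool.Agent.Helper69_Weyl (ee W)

theorem W_eq_WS (t ξ : ℝ) (N : ℕ) : W 5 N t ξ = WS t ξ N := by
  unfold W WS
  refine Finset.sum_bij (fun n _ => (n : ℤ)) ?_ ?_ ?_ ?_
  · intro n hn
    rw [Finset.mem_Icc] at hn ⊢
    exact ⟨by exact_mod_cast hn.1, by exact_mod_cast hn.2⟩
  · intro a _ b _ h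
    exact_mod_cast h
  · intro b hb
    rw [Finset.mem_Icc] at hb
    refine ⟨b.toNat, ?_, ?_⟩
    · rw [Finset.mem_Icc]
      omega
    · omega
  · intro n _
    simp only [Int.cast_natCast]

/-- the sum of the problem -/
theorem sum_eq_WS (t ξ : ℝ) (N : ℕ) :
    ∑ n ∈ Finset.Icc 1 N, Complex.exp (2 * (Real.pi : ℂ) * Complex.I *
      (((t * (n : ℝ) ^ 5 + ξ * (n : ℝ)) : ℝ) : ℂ)) = WS t ξ N := by
  rw [← W_eq_WS]
  rfl

end Pool.Agent.VM5
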