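import Mathlib
import Pool.Agent.VM5.Stmts
import Pool.Agent.VM.Wfin
import Pool.Agent.Helper39_VM.Rtu
import Pool.Agent.Helper10_VM5.Av1
import Pool.Agent.Helper17_VM5.Eb3
import Pool.Agent.Helper20_VM5.Slp
import Pool.Agent.Helper20_VM5.Zzc
import Pool.Agent.Helper21_VM5.Gen
import Pool.Agent.Helper24_VM5.Dn3
import Pool.Agent.Helper29_VM5.WEY
import Pool.Agent.Helper30_VM5.Ycn
import Pool.Agent.Helper39_VM5.Wd2
import Pool.Agent.Helper41_VM5.Str
import Pool.Agent.Helper41_VM5.Qcn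
import Pool.Agent.Helper41_VM5.Rsm
import Pool.Agent.Helper43_VM5.En3
import Pool.Agent.Helper46_VM5.Av2
import Pool.Agent.Helper48_VM5.Cnu
import Pool.Agent.Helper48_VM5.Cub
import Pool.Agent.Helper52_VM5.NU
import Pool.Agent.Helper52_VM5.QD3
import Pool.Agent.Helper52_VM5.GD3
import Pool.Agent.Helper52_VM5.ECL
import Pool.Agent.Helper52_VM5.BCL
import Pool.Agent.Helper54_VM5.Gsm
import Pool.Agent.Helper54_VM5.Hcn
import Pool.Agent.Helper65_VM5.Alt
import Pool.Agent.Helper65_VM5.Ebc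
import Pool.Agent.Helper78_VM5.EA2
import Pool.Agent.Helper81_VM5.Blk
import Pool.Agent.Helper91_VM5.Sig
import Pool.Agent.Helper91_VM5.Eg3
import Pool.Agent.Helper5_VM5.Bl2
import Pool.Agent.Helper10_VM5.Mt5
import Pool.Agent.Helper20_VM5.Ey3
import Pool.Agent.Helper25_VM5.Ypt
import Pool.Agent.Helper32_VM5.Cnb
import Pool.Agent.Helper32_VM5.Vcn
import Pool.Agent.Helper76_VM5.Bl3
import Pool.Agent.Helper83_VM5.Dvb
import Pool.Agent.Helper86_VM5.Fn5
import Pool.Agent.Helper89_VM5.QEE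

/-!
# Weyl's exponent for quintic sums: assembly
-/

set_option autoImplicit false

namespace Pool.Agent.VM5

/-- part III -/
theorem bl3 : Bl3Stmt := by
  have av2 : Av2Stmt := H46.av2 (H39.wd2 H21.wd1) VM.H36.avg
  have v : VcnStmt := H32.vcn H48.cnu
  have ey : Ey3Stmt := H20.ey3 H25.ypt (H30.ycn H48.cnu H83.dvb) v H83.dvb
  have en : En3Stmt := H43.en3 H65.alt (H24.dn3 H48.cnu H83.dvb) (H52.qd3 H83.dvb)
  have eg : Eg3Stmt := H91.eg3 ey H52.gd3 en H83.dvb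
  have eb : Eb3Stmt := H17.eb3 ey v H83.dvb
  exact H76.bl3 (H21.lsg 3 (VM.lsa 3 (by norm_num))) av2 eg eb

/-- part II -/
theorem bl2 : Bl2Stmt := by
  have av1 : Av1Stmt := H10.av1 H21.wd1 VM.H36.avg
  have qc : QcnStmt := H41.qcn (H89.qee H20.slp VM.H39.rtu)
  have hc : HcnStmt := H54.hcn H91.sig (H41.str H91.sig) (H48.cub VM.H39.rtu)
    (H54.gsm H20.slp VM.H39.rtu)
  have ea : Ea2Stmt := H78.ea2 H91.sig (H20.zzc H91.sig) qc hc
  have ecl : EclStmt := H52.ecl ea (H65.ebc H91.sig (H41.rsm H32.cnb H83.dvb))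
  exact H5.bl2 (H52.bcl (H21.lsg 4 (VM.lsa 4 (by norm_num))) ecl) av1 H83.dvb

/-- quintic Weyl sums -/
theorem fn5 : Fn5Stmt :=
  H86.fn5 (H10.mt5 bl2 bl3 VM.H21.dir (H39.pru VM.H39.prm VM.H29.pdv) H52.nu2 H52.nu3)
    H29.wey H81.blk5 VM.H21.dir

end Pool.Agent.VM5
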