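import Mathlib
import Pool.Agent.Helper98_VM5.Fin
import Pool.Agent.Helper98_VM5.Conv
import Pool.Agent.VM5.StmtsB
import Pool.Agent.VM.Major
import Pool.Agent.VM.Ffl
import Pool.Agent.Helper10_VM5.B2w
import Pool.Agent.Helper10_VM5.Hcw
import Pool.Agent.Helper21_VM5.Qcw
import Pool.Agent.Helper21_VM5.Stw
import Pool.Agent.Helper32_VM5.Sgw
import Pool.Agent.Helper32_VM5.Rsw
import Pool.Agent.Helper17_VM5.Wf5
import Pool.Agent.Helper39_VM5.Cuw
import Pool.Agent.Helper39_VM5.Htw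
import Pool.Agent.Helper81_VM5.Ecw
import Pool.Agent.Helper20_VM5.Zzw
import Pool.Agent.Helper43_VM5.Hpw
import Pool.Agent.Helper46_VM5.Eaw
import Pool.Agent.Helper75_VM5.Qew
import Pool.Agent.Helper76_VM5.Gs2

/-!
# Quintic Weyl sums for all `t`: assembly
-/

set_option autoImplicit false

namespace Pool.Agent.VM5

open Pool.Agent.Helper69_Weyl (ee W)

theorem hcn : HcnStmt := H54.hcn H91.sig (H41.str H91.sig) (H48.cub VM.H39.rtu)
    (H54.gsm H20.slp VM.H39.rtu)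

/-- part II, second version -/
theorem b2w : B2wStmt := by
  have av1 : Av1Stmt := H10.av1 H21.wd1 VM.H36.avg
  have sgw : SgwStmt := H32.sgw
  have hp : HpwStmt := H43.hpw
  have hc : HcwStmt := H10.hcw sgw (H21.stw sgw)
    (H39.htw (H39.cuw VM.H39.rtu) (H76.gs2 H20.slp VM.H39.rtu)) hp hcn
  have ea : EawStmt := H46.eaw sgw (H20.zzw sgw) (H21.qcw (H75.qew H20.slp VM.H39.rtu)) hc
  have eb : EbwStmt := H43.ebw sgw (H32.rsw H32.cnb H83.dvb) hp
  exact H10.b2w (H81.bcw (H21.lsg 4 (VM.lsa 4 (by norm_num))) (H81.ecw ea eb)) av1 H83.dvb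

theorem wf5 : Wf5Stmt :=
  H17.wf5 b2w bl3 (H39.pru VM.H39.prm VM.H29.pdv) H52.nu2 H52.nu3

/-- the bound for `t` far from rational numbers with small denominators -/
theorem wfar_of (h : Wf5Stmt) : VM.WFarStmt 5 ((63 : ℝ) / 1000) := by
  obtain ⟨C, hC, h⟩ := h
  intro ε hε
  refine ⟨C, hC, ?_⟩
  intro N t ξ hN hF
  rw [W_eq_WS]
  refine (h N t ξ hN hF).trans ?_
  have hN1 : (1 : ℝ) ≤ (N : ℝ) := by exact_mod_cast hN
  have h1 : (N : ℝ) ^ ((937 : ℝ) / 1000) ≤ (N : ℝ) ^ (1 - (63 : ℝ) / 1000 + ε) :=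
    Real.rpow_le_rpow_of_exponent_le hN1 (by linarith)
  gcongr

/-- the full form for quintic sums -/
theorem full5 : VM.FfaStmt 5 ((63 : ℝ) / 1000) :=
  VM.ffa 5 (by norm_num) _ (VM.maj 5 (by norm_num)) (wfar_of wf5)

end Pool.Agent.VM5
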