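import Mathlib
import Pool.Agent.VM5.StmtsB
import Pool.Agent.Helper98_VM5.Kit
import Pool.Agent.Helper41_VM5.Qcn

set_option autoImplicit false

namespace Pool.Agent.VM5.H98

open Pool.Agent.VM5
open Pool.Agent.VM (Nr)
open Pool.Agent.VM5.H41 (harm_le)

theorem qcw (qee : QewStmt) : QcwStmt := by
  intro ε hε
  obtain ⟨C, hC, hq⟩ := qee (ε / 2) (by positivity)
  refine ⟨C * (1 + 1 / (ε / 2)), by positivity, ?_⟩
  intro N D K u H g t b S hPar hg hgH hHN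
  have hPar' := hPar
  obtain ⟨hDK, hN5, hD10, hND, hNK, hDN, hDK2, hu1, hgcd, hW1, hW2, hNW, hS⟩ := hPar'
  have hH1 : 1 ≤ H := hg.trans hgH
  have hN1 : 1 ≤ N := hH1.trans hHN
  have hn : (1 : ℝ) ≤ (N : ℝ) := by exact_mod_cast hN1
  have hHr : (1 : ℝ) ≤ (H : ℝ) := by exact_mod_cast hH1
  have hHNr : (H : ℝ) ≤ (N : ℝ) := by exact_mod_cast hHN
  have hu0 : (0 : ℝ) < (u : ℝ) := by
    have : 0 < u := by omega
    exact_mod_cast this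
  have hW0 : 0 < WW N u t b := lt_of_lt_of_le hu0 (le_max_left _ _)
  have hDr : (0 : ℝ) < (D : ℝ) := by
    have : 0 < D := by omega
    exact_mod_cast this
  set W : ℝ := WW N u t b with hW
  set lam : ℝ := (g : ℝ) * (N : ℝ) / (H : ℝ) with hlam
  have hlam0 : 0 ≤ lam := by positivity
  -- finiteness
  have hfin : {x : (ℕ × ℕ) × (ℕ × ℕ) | H < 2 * x.1.1 ∧ x.1.1 ≤ H ∧ H < 2 * x.1.2 ∧
        x.1.2 ≤ H ∧ Nat.gcd x.1.1 u = g ∧ Nat.gcd x.1.2 u = g ∧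
        x.2.1 ∈ S ∧ x.2.2 ∈ S ∧ x.2.1 ≠ x.2.2 ∧
        (u : ℤ) ∣ 5 * ((x.1.1 : ℤ) * (x.2.1 : ℤ) ^ 4 - (x.1.2 : ℤ) * (x.2.2 : ℤ) ^ 4) ∧
        |t - (b : ℝ) / (u : ℝ)| * (5 * |(x.1.1 : ℝ) * (x.2.1 : ℝ) ^ 4 -
          (x.1.2 : ℝ) * (x.2.2 : ℝ) ^ 4|) ≤ 1 / (K : ℝ) ^ 4}.Finite := by
    refine Set.Finite.subset (((Set.finite_Icc 0 H).prod (Set.finite_Icc 0 H)).prod
      (S.finite_toSet.prod S.finite_toSet)) ?_
    rintro ⟨⟨h, h'⟩, ⟨d, d'⟩⟩ ⟨-, q2, -, q4, -, -, q7, q8, -⟩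
    exact ⟨⟨⟨Nat.zero_le _, q2⟩, ⟨Nat.zero_le _, q4⟩⟩, ⟨q7, q8⟩⟩
  rw [Kit.card_fib hfin (fun x => Nat.gcd x.1.1 x.1.2) (Finset.Icc 1 H) ?_, Nat.cast_sum]
  · -- every fibre
    have hfib : ∀ e ∈ Finset.Icc 1 H,
        (Nat.card {x : (ℕ × ℕ) × (ℕ × ℕ) // (H < 2 * x.1.1 ∧ x.1.1 ≤ H ∧ H < 2 * x.1.2 ∧
        x.1.2 ≤ H ∧ Nat.gcd x.1.1 u = g ∧ Nat.gcd x.1.2 u = g ∧
        x.2.1 ∈ S ∧ x.2.2 ∈ S ∧ x.2.1 ≠ x.2.2 ∧
        (u : ℤ) ∣ 5 * ((x.1.1 : ℤ) * (x.2.1 : ℤ) ^ 4 - (x.1.2 : ℤ) * (x.2.2 : ℤ) ^ 4) ∧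
        |t - (b : ℝ) / (u : ℝ)| * (5 * |(x.1.1 : ℝ) * (x.2.1 : ℝ) ^ 4 -
          (x.1.2 : ℝ) * (x.2.2 : ℝ) ^ 4|) ≤ 1 / (K : ℝ) ^ 4) ∧
          Nat.gcd x.1.1 x.1.2 = e} : ℝ) ≤
        C * (N : ℝ) ^ (ε / 2) * (lam * (D : ℝ) ^ 2 * (N : ℝ) ^ 2 / W + (N : ℝ) * (D : ℝ)) *
          (1 / (e : ℝ)) := by
      intro e he
      obtain ⟨he1, heH⟩ := Finset.mem_Icc.mp he
      have her : (1 : ℝ) ≤ (e : ℝ) := by exact_mod_cast he1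
      have h1 := hq N D K u H g e t b S hPar hg hgH hHN he1 heH
      have hcard : Nat.card {x : (ℕ × ℕ) × (ℕ × ℕ) // (H < 2 * x.1.1 ∧ x.1.1 ≤ H ∧
        H < 2 * x.1.2 ∧
        x.1.2 ≤ H ∧ Nat.gcd x.1.1 u = g ∧ Nat.gcd x.1.2 u = g ∧
        x.2.1 ∈ S ∧ x.2.2 ∈ S ∧ x.2.1 ≠ x.2.2 ∧
        (u : ℤ) ∣ 5 * ((x.1.1 : ℤ) * (x.2.1 : ℤ) ^ 4 - (x.1.2 : ℤ) * (x.2.2 : ℤ) ^ 4) ∧
        |t - (b : ℝ) / (u : ℝ)| * (5 * |(x.1.1 : ℝ) * (x.2.1 : ℝ) ^ 4 -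
          (x.1.2 : ℝ) * (x.2.2 : ℝ) ^ 4|) ≤ 1 / (K : ℝ) ^ 4) ∧
          Nat.gcd x.1.1 x.1.2 = e} ≤
        Nat.card {x : (ℕ × ℕ) × (ℕ × ℕ) // H < 2 * (e * x.1.1) ∧ e * x.1.1 ≤ H ∧
        H < 2 * (e * x.1.2) ∧ e * x.1.2 ≤ H ∧ Nat.Coprime x.1.1 x.1.2 ∧
        Nat.gcd (e * x.1.1) u = g ∧ Nat.gcd (e * x.1.2) u = g ∧
        x.2.1 ∈ S ∧ x.2.2 ∈ S ∧ x.2.1 ≠ x.2.2 ∧
        (u : ℤ) ∣ 5 * ((e : ℤ) * ((x.1.1 : ℤ) * (x.2.1 : ℤ) ^ 4 - (x.1.2 : ℤ) * (x.2.2 : ℤ) ^ 4)) ∧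
        |t - (b : ℝ) / (u : ℝ)| * (5 * ((e : ℝ) * |(x.1.1 : ℝ) * (x.2.1 : ℝ) ^ 4 -
          (x.1.2 : ℝ) * (x.2.2 : ℝ) ^ 4|)) ≤ 1 / (K : ℝ) ^ 4} := by
        refine Kit.card_inj_le (fun x => ((x.1.1 / e, x.1.2 / e), x.2)) ?_ ?_ ?_
        · refine Set.Finite.subset (((Set.finite_Icc 0 H).prod (Set.finite_Icc 0 H)).prod
            (S.finite_toSet.prod S.finite_toSet)) ?_
          rintro ⟨⟨h, h'⟩, ⟨d, d'⟩⟩ ⟨-, q2, -, q4, -, -, -, q7, q8, -⟩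
          have w1 : h ≤ e * h := Nat.le_mul_of_pos_left h he1
          have w2 : h' ≤ e * h' := Nat.le_mul_of_pos_left h' he1
          exact ⟨⟨⟨Nat.zero_le _, w1.trans q2⟩, ⟨Nat.zero_le _, w2.trans q4⟩⟩, ⟨q7, q8⟩⟩
        · rintro ⟨⟨h, h'⟩, ⟨d, d'⟩⟩ ⟨⟨q1, q2, q3, q4, q5, q6, q7, q8, q9, q10, q11⟩, q12⟩
          simp only at q1 q2 q3 q4 q5 q6 q7 q8 q9 q10 q11 q12
          have v1 : e ∣ h := q12 ▸ Nat.gcd_dvd_left h h'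
          have v2 : e ∣ h' := q12 ▸ Nat.gcd_dvd_right h h'
          have v3 : e * (h / e) = h := Nat.mul_div_cancel' v1
          have v4 : e * (h' / e) = h' := Nat.mul_div_cancel' v2
          have v5 : Nat.Coprime (h / e) (h' / e) := by
            have := Nat.coprime_div_gcd_div_gcd (m := h) (n := h') (by rw [q12]; omega)
            rwa [q12] at this
          have v6 : (e : ℤ) * ((h / e : ℕ) : ℤ) = (h : ℤ) := by exact_mod_cast v3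
          have v7 : (e : ℤ) * ((h' / e : ℕ) : ℤ) = (h' : ℤ) := by exact_mod_cast v4
          have v8 : (e : ℝ) * ((h / e : ℕ) : ℝ) = (h : ℝ) := by exact_mod_cast v3
          have v9 : (e : ℝ) * ((h' / e : ℕ) : ℝ) = (h' : ℝ) := by exact_mod_cast v4
          refine ⟨?_, ?_, ?_, ?_, v5, ?_, ?_, q7, q8, q9, ?_, ?_⟩
          · show H < 2 * (e * (h / e)); rw [v3]; exact q1
          · show e * (h / e) ≤ H; rw [v3]; exact q2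
          · show H < 2 * (e * (h' / e)); rw [v4]; exact q3
          · show e * (h' / e) ≤ H; rw [v4]; exact q4
          · show Nat.gcd (e * (h / e)) u = g; rw [v3]; exact q5
          · show Nat.gcd (e * (h' / e)) u = g; rw [v4]; exact q6
          · show (u : ℤ) ∣ 5 * ((e : ℤ) * (((h / e : ℕ) : ℤ) * (d : ℤ) ^ 4 -
              ((h' / e : ℕ) : ℤ) * (d' : ℤ) ^ 4))
            have : (e : ℤ) * (((h / e : ℕ) : ℤ) * (d : ℤ) ^ 4 - ((h' / e : ℕ) : ℤ) *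
                (d' : ℤ) ^ 4) = (h : ℤ) * (d : ℤ) ^ 4 - (h' : ℤ) * (d' : ℤ) ^ 4 := by
              rw [← v6, ← v7]; ring
            rw [this]; exact q10
          · show |t - (b : ℝ) / (u : ℝ)| * (5 * ((e : ℝ) * |((h / e : ℕ) : ℝ) * (d : ℝ) ^ 4 -
              ((h' / e : ℕ) : ℝ) * (d' : ℝ) ^ 4|)) ≤ 1 / (K : ℝ) ^ 4
            have : (e : ℝ) * |((h / e : ℕ) : ℝ) * (d : ℝ) ^ 4 - ((h' / e : ℕ) : ℝ) *
                (d' : ℝ) ^ 4| = |(h : ℝ) * (d : ℝ) ^ 4 - (h' : ℝ) * (d' : ℝ) ^ 4| := by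
              rw [← v8, ← v9]
              rw [show (e : ℝ) * ((h / e : ℕ) : ℝ) * (d : ℝ) ^ 4 -
                (e : ℝ) * ((h' / e : ℕ) : ℝ) * (d' : ℝ) ^ 4 =
                (e : ℝ) * (((h / e : ℕ) : ℝ) * (d : ℝ) ^ 4 -
                  ((h' / e : ℕ) : ℝ) * (d' : ℝ) ^ 4) by ring, abs_mul,
                abs_of_nonneg (Nat.cast_nonneg e : (0 : ℝ) ≤ (e : ℝ))]
            rw [this]; exact q11
        · rintro ⟨⟨h, h'⟩, dd⟩ ⟨⟨k, k'⟩, dd'⟩ hx hy hxy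
          have q12 : Nat.gcd h h' = e := hx.2
          have q13 : Nat.gcd k k' = e := hy.2
          simp only [Prod.mk.injEq] at hxy
          obtain ⟨⟨w1, w2⟩, w3⟩ := hxy
          have a1 : h = k := by
            rw [← Nat.mul_div_cancel' (q12 ▸ Nat.gcd_dvd_left h h' : e ∣ h),
              ← Nat.mul_div_cancel' (q13 ▸ Nat.gcd_dvd_left k k' : e ∣ k), w1]
          have a2 : h' = k' := by
            rw [← Nat.mul_div_cancel' (q12 ▸ Nat.gcd_dvd_right h h' : e ∣ h'),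
              ← Nat.mul_div_cancel' (q13 ▸ Nat.gcd_dvd_right k k' : e ∣ k'), w2]
          rw [a1, a2, w3]
      have hcard' := (Nat.cast_le (α := ℝ)).mpr hcard
      refine hcard'.trans (h1.trans ?_)
      rw [mul_assoc (C * (N : ℝ) ^ (ε / 2))]
      refine mul_le_mul_of_nonneg_left ?_ (by positivity)
      have he0 : (0 : ℝ) < (e : ℝ) := by linarith
      have hinv : (1 / (e : ℝ)) ^ 2 ≤ 1 / (e : ℝ) := by
        have i1 : 1 / (e : ℝ) ≤ 1 := by rw [div_le_one he0]; exact her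
        have i2 : 0 ≤ 1 / (e : ℝ) := by positivity
        nlinarith
      have k1 : lam * (D : ℝ) ^ 2 * ((H : ℝ) / (e : ℝ)) ^ 2 / W ≤
          lam * (D : ℝ) ^ 2 * (N : ℝ) ^ 2 / W * (1 / (e : ℝ)) := by
        have j1 : (H : ℝ) ^ 2 ≤ (N : ℝ) ^ 2 := pow_le_pow_left₀ (by linarith) hHNr 2
        have j2 : ((H : ℝ) / (e : ℝ)) ^ 2 ≤ (N : ℝ) ^ 2 * (1 / (e : ℝ)) := by
          calc ((H : ℝ) / (e : ℝ)) ^ 2 = (H : ℝ) ^ 2 * (1 / (e : ℝ)) ^ 2 := by ring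
            _ ≤ (N : ℝ) ^ 2 * (1 / (e : ℝ)) :=
              mul_le_mul j1 hinv (by positivity) (by positivity)
        calc lam * (D : ℝ) ^ 2 * ((H : ℝ) / (e : ℝ)) ^ 2 / W
            = (lam * (D : ℝ) ^ 2 / W) * ((H : ℝ) / (e : ℝ)) ^ 2 := by ring
          _ ≤ (lam * (D : ℝ) ^ 2 / W) * ((N : ℝ) ^ 2 * (1 / (e : ℝ))) :=
              mul_le_mul_of_nonneg_left j2 (by positivity)
          _ = _ := by ring
      have k2 : min ((D : ℝ) ^ 2) (((H : ℝ) / (e : ℝ)) ^ 2) ≤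
          (N : ℝ) * (D : ℝ) * (1 / (e : ℝ)) := by
        have l1 : min ((D : ℝ) ^ 2) (((H : ℝ) / (e : ℝ)) ^ 2) ≤
            (D : ℝ) * ((H : ℝ) / (e : ℝ)) := by
          have m1 : 0 ≤ (H : ℝ) / (e : ℝ) := by positivity
          rcases le_total (D : ℝ) ((H : ℝ) / (e : ℝ)) with h | h
          · refine (min_le_left _ _).trans ?_
            nlinarith
          · refine (min_le_right _ _).trans ?_
            nlinarith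
        calc _ ≤ (D : ℝ) * ((H : ℝ) / (e : ℝ)) := l1
          _ = (D : ℝ) * (H : ℝ) * (1 / (e : ℝ)) := by ring
          _ ≤ (N : ℝ) * (D : ℝ) * (1 / (e : ℝ)) := by
            refine mul_le_mul_of_nonneg_right ?_ (by positivity)
            nlinarith
      calc lam * (D : ℝ) ^ 2 * ((H : ℝ) / (e : ℝ)) ^ 2 / W +
            min ((D : ℝ) ^ 2) (((H : ℝ) / (e : ℝ)) ^ 2)
          ≤ lam * (D : ℝ) ^ 2 * (N : ℝ) ^ 2 / W * (1 / (e : ℝ)) +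
            (N : ℝ) * (D : ℝ) * (1 / (e : ℝ)) := add_le_add k1 k2
        _ = _ := by ring
    calc _ ≤ ∑ e ∈ Finset.Icc 1 H, C * (N : ℝ) ^ (ε / 2) *
          (lam * (D : ℝ) ^ 2 * (N : ℝ) ^ 2 / W + (N : ℝ) * (D : ℝ)) * (1 / (e : ℝ)) :=
          Finset.sum_le_sum hfib
      _ = C * (N : ℝ) ^ (ε / 2) * (lam * (D : ℝ) ^ 2 * (N : ℝ) ^ 2 / W +
          (N : ℝ) * (D : ℝ)) * ∑ e ∈ Finset.Icc 1 H, 1 / (e : ℝ) := by
          rw [← Finset.mul_sum]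
      _ ≤ C * (N : ℝ) ^ (ε / 2) * (lam * (D : ℝ) ^ 2 * (N : ℝ) ^ 2 / W +
          (N : ℝ) * (D : ℝ)) * ((1 + 1 / (ε / 2)) * (N : ℝ) ^ (ε / 2)) :=
          mul_le_mul_of_nonneg_left (harm_le (by positivity) H N hH1 hHN) (by positivity)
      _ = C * (1 + 1 / (ε / 2)) * ((N : ℝ) ^ (ε / 2) * (N : ℝ) ^ (ε / 2)) *
          (lam * (D : ℝ) ^ 2 * (N : ℝ) ^ 2 / W + (N : ℝ) * (D : ℝ)) := by ring
      _ = _ := by
          rw [← Real.rpow_add (by linarith), add_halves]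
  · rintro ⟨⟨h, h'⟩, dd⟩ ⟨q1, q2, q3, q4, -⟩
    simp only at q1 q2 q3 q4
    have hp : 0 < h := by omega
    rw [Finset.mem_Icc]
    exact ⟨Nat.gcd_pos_of_pos_left _ hp, (Nat.gcd_le_left h' hp).trans q2⟩

end Pool.Agent.VM5.H98
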